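import Pool.Agent.Y922.AP.Fin2

/-!
# Products of Dirichlet L-functions: the solutions of `F(s) = a` are algebraically independent for almost all `a`

For a finite set `H` of nontrivial Dirichlet characters modulo `q` with `χ⁻¹ ∈ H` for `χ ∈ H`, let `F_H` be the product of
the Riemann xi function and the completed L-functions of (the primitive characters inducing) the characters in `H`. If `F`
is an abelian extension of `ℚ` in the `q`-th cyclotomic field and `H` the set of the nontrivial characters of its Galois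
group, the zeros of `F_H` are the nontrivial zeros of all Artin L-functions `L(s, χ, F/ℚ)`. We prove that there is one
countable set of exceptional levels `a`, for all `q` and `H`, outside which the solutions of `F_H(s) = a` and, for real
`a`, their positive imaginary parts, are algebraically independent over `K(a)`, `K` any given countable field.
-/

set_option autoImplicit false

open Filter Topology

namespace Pool.Agent.Results.MP_0f5a55_nt.AbelianAlmostAllLevels

/-- The Riemann xi function: `ξ(s) = (s (s - 1) Λ₀(s) + 1) / 2 = s (s - 1) π^(-s/2) Γ(s/2) ζ(s) / 2`. -/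
noncomputable def xi (s : ℂ) : ℂ := (s * (s - 1) * completedRiemannZeta₀ s + 1) / 2

/-- `f^(s/2) Λ(s, χ*)`, where `χ*` is the primitive character inducing `χ`, `f` its conductor, and `Λ` the completed
L-function (with its Gamma factor). -/
noncomputable def Lam {q : ℕ} [NeZero q] (χ : DirichletCharacter ℂ q) (s : ℂ) : ℂ :=
  haveI : NeZero χ.conductor := ⟨χ.conductor_ne_zero⟩
  (χ.conductor : ℂ) ^ (s / 2) * DirichletCharacter.completedLFunction χ.primitiveCharacter s

/-- The L-function `L(s, χ*)` of the primitive character inducing `χ`. -/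
noncomputable def LStar {q : ℕ} [NeZero q] (χ : DirichletCharacter ℂ q) (s : ℂ) : ℂ :=
  haveI : NeZero χ.conductor := ⟨χ.conductor_ne_zero⟩
  DirichletCharacter.LFunction χ.primitiveCharacter s

/-- `F_H(s)`, the product of `ξ(s)` and of the functions `Lam χ s` for the characters `χ` in `H`. -/
noncomputable def FH {q : ℕ} [NeZero q] (H : Finset (DirichletCharacter ℂ q)) (s : ℂ) : ℂ := xi s * ∏ χ ∈ H, Lam χ s

/-- The set of the positive imaginary parts of the solutions of `F_H(s) = a`. -/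
def Ordinates {q : ℕ} [NeZero q] (H : Finset (DirichletCharacter ℂ q)) (a : ℂ) : Set ℝ :=
  {γ | 0 < γ ∧ ∃ β : ℝ, FH H ((β : ℂ) + (γ : ℂ) * Complex.I) = a}

/-- The subfield `K(a)` of `ℂ`. -/
noncomputable def adj (K : Subfield ℂ) (a : ℂ) : Subfield ℂ := Subfield.closure ((K : Set ℂ) ∪ {a})

theorem xi_zero_iff (s : ℂ) (hs : 0 < s.im) : xi s = 0 ↔ riemannZeta s = 0 := by
  have h0 : s ≠ 0 := by rintro rfl; simp at hs
  have h1 : s ≠ 1 := by rintro rfl; simp at hs
  have h1' : (1 : ℂ) - s ≠ 0 := sub_ne_zero.mpr h1.symm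
  have h2 : xi s = s * (s - 1) * completedRiemannZeta s / 2 := by
    rw [xi, completedRiemannZeta_eq]
    field_simp
    ring
  have h3 : Complex.Gammaℝ s ≠ 0 := by
    intro h
    rw [Complex.Gammaℝ_eq_zero_iff] at h
    obtain ⟨n, hn⟩ := h
    rw [hn] at hs
    simp at hs
  have h4 := riemannZeta_def_of_ne_zero h0
  have h5 : s * (s - 1) ≠ 0 := mul_ne_zero h0 (sub_ne_zero.mpr h1)
  rw [h2, h4, div_eq_zero_iff, div_eq_zero_iff, mul_eq_zero]
  constructor
  · rintro ((h | h) | h)
    · exact absurd h h5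
    · exact Or.inl h
    · norm_num at h
  · rintro (h | h)
    · exact Or.inl (Or.inr h)
    · exact absurd h h3

theorem lam_zero_iff {q : ℕ} [NeZero q] (χ : DirichletCharacter ℂ q) (s : ℂ) (hs : 0 < s.im) :
    Lam χ s = 0 ↔ LStar χ s = 0 := by
  have : NeZero χ.conductor := ⟨χ.conductor_ne_zero⟩
  have h0 : s ≠ 0 := by rintro rfl; simp at hs
  have hc : (χ.conductor : ℂ) ≠ 0 := by exact_mod_cast NeZero.ne χ.conductor
  have h1 : (χ.conductor : ℂ) ^ (s / 2) ≠ 0 := by
    rw [Ne, Complex.cpow_eq_zero_iff]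
    exact fun h => hc h.1
  have hG : ∀ z : ℂ, 0 < z.im → Complex.Gammaℝ z ≠ 0 := by
    intro z hz h
    rw [Complex.Gammaℝ_eq_zero_iff] at h
    obtain ⟨n, hn⟩ := h
    rw [hn] at hz
    simp at hz
  have h3 : χ.primitiveCharacter.gammaFactor s ≠ 0 := by
    unfold DirichletCharacter.gammaFactor
    split_ifs
    · exact hG s hs
    · exact hG (s + 1) (by simpa using hs)
  have h4 : LStar χ s = DirichletCharacter.completedLFunction χ.primitiveCharacter s /
      χ.primitiveCharacter.gammaFactor s :=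
    DirichletCharacter.LFunction_eq_completed_div_gammaFactor _ s (Or.inl h0)
  rw [h4, Lam, mul_eq_zero, div_eq_zero_iff]
  constructor
  · rintro (h | h)
    · exact absurd h h1
    · exact Or.inl h
  · rintro (h | h)
    · exact Or.inr h
    · exact absurd h h3

/-- Let `K` be a countable subfield of `ℂ`. There is a countable set `E` such that for every `q ≥ 1`, every finite set `H`
of nontrivial Dirichlet characters modulo `q` with `χ⁻¹ ∈ H` for all `χ ∈ H`, and every `a` outside `E`: `a` is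
transcendental over `K`, and any solutions `s_1, …, s_n` of `F_H(s) = a` with `s_i ≠ s_j` and `s_i + s_j ≠ 1` for `i ≠ j`
are algebraically independent over `K(a)`; if `a` is real, the set of the positive imaginary parts of all solutions of
`F_H(s) = a` is algebraically independent over `K(a)`. Moreover, local inverse functions `g_i` of `F_H` near any `a₀`
with `g_i(a₀) ≠ g_j(a₀)` and `g_i(a₀) + g_j(a₀) ≠ 1` for `i ≠ j` are algebraically independent over `ℂ(a)`. The set
`Ordinates H 0` is the set of the positive ordinates of the zeros of the functions `ζ(s)` and `L(s, χ*)`, `χ ∈ H`. -/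
theorem result :
    (∀ K : Subfield ℂ, Countable K → ∃ E : Set ℂ, E.Countable ∧
      ∀ (q : ℕ) [NeZero q] (H : Finset (DirichletCharacter ℂ q)), (∀ χ ∈ H, χ ≠ 1) → (∀ χ ∈ H, χ⁻¹ ∈ H) →
        (∀ a : ℂ, a ∉ E → Transcendental K a ∧
          ∀ (n : ℕ) (s : Fin n → ℂ), (∀ i, FH H (s i) = a) → (∀ i j, i ≠ j → s i ≠ s j ∧ s i + s j ≠ 1) →
            AlgebraicIndependent (adj K a) s) ∧
        ∀ a : ℝ, (a : ℂ) ∉ E → AlgebraicIndependent (adj K a) (fun γ : Ordinates H a => ((γ : ℝ) : ℂ))) ∧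
    ∀ (q : ℕ) [NeZero q] (H : Finset (DirichletCharacter ℂ q)), (∀ χ ∈ H, χ ≠ 1) → (∀ χ ∈ H, χ⁻¹ ∈ H) →
      (∀ (n : ℕ) (P : MvPolynomial (Option (Fin n)) ℂ), P ≠ 0 → ∀ (a₀ : ℂ) (g : Fin n → ℂ → ℂ),
        (∀ i, AnalyticAt ℂ (g i) a₀) → (∀ i, ∀ᶠ a in 𝓝 a₀, FH H (g i a) = a) →
        (∀ i j, i ≠ j → g i a₀ ≠ g j a₀ ∧ g i a₀ + g j a₀ ≠ 1) →
        ∀ᶠ a in 𝓝[≠] a₀, MvPolynomial.eval (fun o : Option (Fin n) => o.elim a fun i => g i a) P ≠ 0) ∧
      Ordinates H 0 = {γ : ℝ | 0 < γ ∧ ∃ β : ℝ, riemannZeta ((β : ℂ) + (γ : ℂ) * Complex.I) = 0 ∨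
        ∃ χ ∈ H, LStar χ ((β : ℂ) + (γ : ℂ) * Complex.I) = 0} := by
  refine ⟨fun K hK => Y922.AQ.final_all K hK, fun q _ H h1 h2 => ⟨fun n P hP a₀ g h3 h4 h5 =>
    Y922.AQ.final_fun H h1 h2 n P hP a₀ g h3 h4 h5, ?_⟩⟩
  ext γ
  constructor
  · rintro ⟨h3, β, h4⟩
    have him : 0 < ((β : ℂ) + (γ : ℂ) * Complex.I).im := by simpa using h3
    refine ⟨h3, β, ?_⟩
    rw [FH, mul_eq_zero, Finset.prod_eq_zero_iff] at h4
    rcases h4 with h4 | ⟨χ, hχ, h4⟩
    · exact Or.inl ((xi_zero_iff _ him).mp h4)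
    · exact Or.inr ⟨χ, hχ, (lam_zero_iff χ _ him).mp h4⟩
  · rintro ⟨h3, β, h4⟩
    have him : 0 < ((β : ℂ) + (γ : ℂ) * Complex.I).im := by simpa using h3
    refine ⟨h3, β, ?_⟩
    rw [FH, mul_eq_zero, Finset.prod_eq_zero_iff]
    rcases h4 with h4 | ⟨χ, hχ, h4⟩
    · exact Or.inl ((xi_zero_iff _ him).mpr h4)
    · exact Or.inr ⟨χ, hχ, (lam_zero_iff χ _ him).mpr h4⟩

end Pool.Agent.Results.MP_0f5a55_nt.AbelianAlmostAllLevels
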