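import Pool.Agent.Y772.ND.Pub

/-!
# The divisors of monomial Artin L-functions are linearly independent

Let `K` be a Galois number field, of any degree and signature, and let `ψ_1, …, ψ_k` be primitive
ray class characters of `K`, of conductors `≠ 1`, no two of which are conjugate under `Gal(K/ℚ)`.
By class field theory `L(s, ψ_i)` is the Artin L-function over `ℚ` of the monomial representation
induced by `ψ_i`.  For all real numbers `λ_1, …, λ_k`, not all zero, there is `c > 0` such that for
all large `T` at least `c T log T` points of the strip `0 < Re s < 1`, `T < Im s ≤ 2T` satisfy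
`∑ λ_i ord_s L(s, ψ_i) ≠ 0`.  (The number of all zeros is `≍ T log T`.)

In particular two different such L-functions have a positive proportion of zeros which are not common
zeros.  No hypothesis (GRH, density of zeros) is used.

The definitions (`IsRay`, `NotConj`, `IsL`, `unbalanced`) are in `Pool/Agent/Y772/ND/Pub.lean`.
-/

open NumberField Filter
open Pool.Agent.Y772.ND.Pub (IsRay NotConj IsL unbalanced)

namespace Pool.Agent.Results.MP_0f5a55_nt.IndependentDivisors

/-- **Main theorem.** -/
theorem result (K : Type) [Field K] [NumberField K] (hG : IsGalois ℚ K) (ι : Type) [Fintype ι]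
    (𝔣 : ι → Ideal (𝓞 K)) (ψ : ι → Ideal (𝓞 K) →*₀ ℂ) (hψ : ∀ i, IsRay K (𝔣 i) (ψ i))
    (hf : ∀ i, 𝔣 i ≠ ⊤) (hne : ∀ i j, i ≠ j → NotConj (ψ i) (ψ j)) :
    ∃ L : ι → ℂ → ℂ, (∀ i, IsL (ψ i) (L i)) ∧
      ∀ lam : ι → ℝ, lam ≠ 0 → ∃ c : ℝ, 0 < c ∧ ∀ᶠ T : ℝ in atTop,
        c * T * Real.log T ≤ ((unbalanced L lam T).ncard : ℝ) :=
  Pool.Agent.Y772.ND.Pub.main hG 𝔣 ψ hψ hf hne

end Pool.Agent.Results.MP_0f5a55_nt.IndependentDivisors
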