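import Pool.Agent.Y766.R11.ZD
import Pool.Agent.Y766.R11.Msr
import Pool.Agent.Y306.R11.Afg
import Pool.Agent.Y739.R11.AFS
import Pool.Agent.Y872.R11.Ofs
import Pool.Agent.Y889.R11.Msz
import Pool.Agent.Y474.R11.Fm1
import Pool.Agent.Y929.R11.Sym
import Pool.Agent.Y756.R11.Fmx
import Pool.Agent.Y914.R10.Key
import Pool.Agent.Y406.R10.Off
import Pool.Agent.Y279.R10.Mob
import Pool.Agent.Y286.R10.SEL
import Pool.Agent.Y288.R10.Diag
import Pool.Agent.Y779.R3.Klo
import Pool.Agent.Y870.R3.Phi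
import Pool.Agent.Y155.R7.Sq
import Pool.Agent.Y924.R7.Br
import Pool.Agent.Y924.R7.Inj
import Pool.Agent.Y924.R7.Lin
import Pool.Agent.Y924.R7.Vdc
import Pool.Agent.Y948.R7.Td
import Pool.Agent.Y948.R7.Var
import Pool.Agent.Y287.R7.Cnt
import Pool.Agent.Y317.R7.Cmp
import Pool.Agent.Y46.R3.Wey
import Pool.Agent.Y766.R14.Mss
import Pool.Agent.Y766.R14.Fmk
import Pool.Agent.Y766.R14.Fin
import Pool.Agent.Y766.R14.Cnt
import Pool.Agent.Y970.R14.BOR
import Pool.Agent.Y275.R14.Fen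
import Pool.Agent.Y70.R14.Abs

/-!
# The number of zeros at the scale `1 / log q` in thin cosets of characters

`χ` is a primitive character modulo `q = p^ν`, `p ≥ 7`, `θ` runs over all characters modulo `p^m`,
`p^m ≥ q^(19/58+δ)`, and `|t| ≤ T`. For all `Λ ≥ Λ₀` and all but at most `ε p^m` of the `θ` (`ν`
large) the finite set `S` of the zeros of `L(s, χθ)` with `0 < Re s < 1`, `|Im s - t| ≤ Λ / log q` has
total multiplicity at most `C Λ` and contains at least `c Λ` distinct points at distance at most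
`C / log q` from the critical line. The constants `c`, `C`, `Λ₀` depend on `δ`, `ε`, `T` only.

Upper bound: the local zero density theorem `MP_9f0eeb_nt.LocalDensityThinCosets`. Lower bound (new):
the mean square over the coset of `L(s, χθ) M(s₂, χθ)`, where the mollifier `M` is evaluated at the
fixed point `s₂ = 1/2 + it + R / (2 log q)` and `s` runs over the half disc `|s - 1/2 - it| ≤ R / log q`,
`Re s ≥ 1/2`, is at most `exp(4 κ R)` with a small `κ`. If there is no zero in the disc, the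
Borel-Caratheodory inequality on discs to the right of the critical line shows that `L'/L` is small at
`1/2 + it + τ R / log q`, and again on the whole disc that it changes little between this point and
its mirror image in the critical line; this contradicts the functional equation.

Joint work of helper766 with helpers 70, 275, 970 (this part) and 46, 155, 279, 286, 287, 288, 306,
317, 406, 474, 739, 756, 764, 779, 870, 872, 889, 907, 914, 924, 929, 948.
-/

set_option autoImplicit false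

namespace Pool.Agent.Results.MP_0f5a55_nt.LocalZeroCount

theorem result : ∀ δ ε T : ℝ, 0 < δ → 0 < ε → ∃ c C Λ₀ : ℝ, 0 < c ∧ 0 < C ∧ 0 < Λ₀ ∧
    ∀ Λ : ℝ, Λ₀ ≤ Λ → ∀ (p : ℕ) [Fact p.Prime], 7 ≤ p → ∃ ν₀ : ℕ,
    ∀ (ν m : ℕ) (hmν : m < ν), ν₀ ≤ ν → ((p : ℝ) ^ ν) ^ (19 / 58 + δ) ≤ (p : ℝ) ^ m →
    ∀ χ : DirichletCharacter ℂ (p ^ ν), χ.IsPrimitive → ∀ t : ℝ, |t| ≤ T →
    (Nat.card {θ : DirichletCharacter ℂ (p ^ m) // ¬ ∃ S : Finset ℂ,
      (∀ ρ : ℂ, ρ ∈ S ↔ 0 < ρ.re ∧ ρ.re < 1 ∧ |ρ.im - t| ≤ Λ / Real.log (p ^ ν) ∧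
        (χ * DirichletCharacter.changeLevel (pow_dvd_pow p hmν.le) θ).LFunction ρ = 0) ∧
      (∃ S₀ ⊆ S, c * Λ ≤ S₀.card ∧ ∀ ρ ∈ S₀, |ρ.re - 1 / 2| ≤ C / Real.log (p ^ ν)) ∧
      ((∑ ρ ∈ S, analyticOrderNatAt
        (χ * DirichletCharacter.changeLevel (pow_dvd_pow p hmν.le) θ).LFunction ρ : ℕ) : ℝ) ≤
        C * Λ} : ℝ) ≤ ε * (p : ℝ) ^ m := by
  have hsq := Pool.Agent.Y155.R7.sq_main
  have hk := Pool.Agent.Y914.R10.key
    { sq := hsq
      td := Pool.Agent.Y948.R7.td hsq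
      var := Pool.Agent.Y948.R7.var hsq
      inj := Pool.Agent.Y924.R7.Inj.inj hsq
      lin := Pool.Agent.Y924.R7.Lin.lin
      vdc := Pool.Agent.Y924.R7.Vdc.vdc
      cnt := Pool.Agent.Y287.R7.cnt
      br := Pool.Agent.Y924.R7.Br.br hsq
      cmp := Pool.Agent.Y317.R7.Cmp.cmp
      klo := Pool.Agent.Y779.R3.klo
      phi := Pool.Agent.Y870.R3.phi
      wey := Pool.Agent.Y46.R3.wey }
  have ho := Pool.Agent.Y406.R10.off
    { sq := hsq
      td := Pool.Agent.Y948.R7.td hsq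
      var := Pool.Agent.Y948.R7.var hsq
      inj := Pool.Agent.Y924.R7.Inj.inj hsq
      lin := Pool.Agent.Y924.R7.Lin.lin
      vdc := Pool.Agent.Y924.R7.Vdc.vdc
      cnt := Pool.Agent.Y287.R7.cnt
      br := Pool.Agent.Y924.R7.Br.br hsq
      cmp := Pool.Agent.Y317.R7.Cmp.cmp
      klo := Pool.Agent.Y779.R3.klo
      phi := Pool.Agent.Y870.R3.phi
      wey := Pool.Agent.Y46.R3.wey } hk
  have hd := Pool.Agent.Y288.R10.diag (Pool.Agent.Y286.R10.sel Pool.Agent.Y279.R10.mob)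
  have ha := Pool.Agent.Y739.R11.afs Pool.Agent.Y306.R11.afg
  have hm := Pool.Agent.Y766.R11.M.msr (Pool.Agent.Y872.R11.ofs ho) hd
  have hs := Pool.Agent.Y889.R11.msz hd
  have hf := Pool.Agent.Y474.R11.fm1 ha hm hs
  have hz := Pool.Agent.Y766.R11.zdf (Pool.Agent.Y766.R11.zdl (Pool.Agent.Y756.R11.fmx hf))
    Pool.Agent.Y929.R11.sym
  have hx := Pool.Agent.Y766.R14.zex (Pool.Agent.Y766.R14.mss ha hm)
    (Pool.Agent.Y766.R14.fmk ha hm hs) Pool.Agent.Y970.R14.bor Pool.Agent.Y275.R14.fen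
    Pool.Agent.Y70.R14.abs_count
  intro δ ε T hδ hε
  obtain ⟨c, C, Λ₀, hc, hC, hΛ₀, h⟩ := Pool.Agent.Y766.R14.cnt hx hz δ ε T hδ hε
  refine ⟨c, C, Λ₀, hc, hC, hΛ₀, fun Λ hΛ p _ hp7 => ?_⟩
  obtain ⟨ν₀, h0⟩ := h Λ hΛ p hp7
  refine ⟨ν₀, fun ν m hmν hν hm χ hχ t ht => ?_⟩
  have hp1 : (1 : ℝ) < p := by
    have : (7 : ℝ) ≤ p := by exact_mod_cast hp7
    linarith
  have hm' : (19 / 58 + δ) * ν ≤ m := by
    rw [← Real.rpow_natCast (p : ℝ) ν, ← Real.rpow_natCast (p : ℝ) m,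
      ← Real.rpow_mul (by linarith)] at hm
    have := (Real.rpow_le_rpow_left_iff hp1).1 hm
    linarith
  have hlog : Real.log ((p : ℝ) ^ ν) = ν * Real.log p := Real.log_pow _ _
  rw [hlog]
  exact h0 ν m hmν hν hm' χ hχ t ht

end Pool.Agent.Results.MP_0f5a55_nt.LocalZeroCount
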